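import Mathlib

set_option autoImplicit false
set_option maxHeartbeats 400000

namespace Pool.Agent.Results.MP_e7dccd_co.Upper

open Finset

theorem loc {n d : ℕ} (U : Finset (Fin n → ZMod 3)) (x : Fin n → ZMod 3)
    (h : (U.filter fun y => hammingDist x y = 1).card ≤ d) :
    ∑ i : Fin n, ((if x + Pi.single i 1 ∈ U then (1 : ℤ) else 0) +
      if x + Pi.single i 1 + Pi.single i 1 ∈ U then (1 : ℤ) else 0) ≤ d := by
  have e : ∀ i : Fin n, x + Pi.single i 1 + Pi.single i 1 = x + Pi.single i 2 := fun i => by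
    rw [add_assoc, ← Pi.single_add]; rfl
  have nz : ∀ b : Bool, (if b then 1 else 2 : ZMod 3) ≠ 0 := by decide
  have := (card_le_card_of_injOn (s := univ.filter fun p : Fin n × Bool =>
    x + Pi.single p.1 (if p.2 then 1 else 2) ∈ U) (t := U.filter fun y => hammingDist x y = 1)
    (fun p => x + Pi.single p.1 (if p.2 then 1 else 2)) (fun p hp => by
      simp only [coe_filter, mem_univ, true_and, Set.mem_ofPred_eq] at hp ⊢
      refine ⟨hp, card_eq_one.2 ⟨p.1, ?_⟩⟩
      ext j
      by_cases c : j = p.1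
      · subst c; simp [nz]
      · simp [c]) (fun ⟨i, b⟩ _ ⟨j, c⟩ _ h => by
      have h' := congrFun (add_left_cancel h) i
      by_cases e : i = j
      · subst e
        simp only [Pi.single_eq_same] at h'
        revert h'; cases b <;> cases c <;> simp <;> decide
      · simp [e, nz] at h')).trans h
  rw [card_filter, Fintype.sum_prod_type] at this
  simp only [e]
  have h2 : ((∑ i : Fin n, ∑ b : Bool, if x + Pi.single i (if b then 1 else 2) ∈ U then 1 else 0 : ℕ) : ℤ)
    ≤ d := by exact_mod_cast this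
  simp only [Fintype.sum_bool, if_true, Bool.false_eq_true, if_false] at h2
  push_cast at h2
  exact h2

theorem result (n d : ℕ) (U : Finset (Fin n → ZMod 3))
    (h : ∀ x ∈ U, (U.filter fun y => hammingDist x y = 1).card ≤ d) :
    max (6 * (n : ℤ) - 3 * d) (4 * (n : ℤ) - d) * U.card ≤ 2 * n * 3 ^ n := by
  obtain ⟨a, ha⟩ : ∃ a : (Fin n → ZMod 3) → ℤ, a = fun x => if x ∈ U then 1 else 0 := ⟨_, rfl⟩
  have s0 : ∑ x, a x = U.card := by simp [ha]
  have sh : ∀ (e : Fin n → ZMod 3) (f : (Fin n → ZMod 3) → ℤ), ∑ x, f (x + e) = ∑ x, f x :=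
    fun e f => Equiv.sum_comp (Equiv.addRight e) f
  have up : ∑ i : Fin n, ∑ x, a x * (a (x + Pi.single i 1) + a (x + Pi.single i 1 + Pi.single i 1))
      ≤ d * U.card := by
    rw [sum_comm, ← s0, mul_sum]
    refine sum_le_sum fun x _ => ?_
    rw [← mul_sum]
    by_cases c : x ∈ U
    · simpa only [ha, if_pos c, one_mul, mul_one] using loc U x (h x c)
    · simp [ha, c]
  have key : ∀ p q : ℤ, (∀ u v w : ℤ, (u = 0 ∨ u = 1) → (v = 0 ∨ v = 1) → (w = 0 ∨ w = 1) →
      p * (u + v + w) - q ≤ u * (v + w) + v * (w + u) + w * (u + v)) →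
      n * (3 * p * U.card - q * 3 ^ n) ≤ 3 * (d * U.card) := fun p q H => by
    have a01 : ∀ x, a x = 0 ∨ a x = 1 := fun x => by rw [ha]; dsimp only; split_ifs <;> simp
    refine le_trans ?_ (mul_le_mul_of_nonneg_left up (by norm_num))
    rw [mul_sum]
    refine le_trans (by simp [mul_sub]) (sum_le_sum (f := fun _ => 3 * p * U.card - q * 3 ^ n) fun i _ => ?_)
    obtain ⟨e, he⟩ : ∃ e : Fin n → ZMod 3, e = Pi.single i 1 := ⟨_, rfl⟩
    have e3 : ∀ x : Fin n → ZMod 3, x + e + e + e = x := fun x => by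
      ext j
      have : ∀ u v : ZMod 3, u + v + v + v = u := by decide
      exact this _ _
    rw [← he]
    have t := sum_le_sum fun x (_ : x ∈ univ) => H _ _ _ (a01 x) (a01 (x + e)) (a01 (x + e + e))
    have b1 := sh e fun x => a x * (a (x + e) + a (x + e + e))
    have b2 := sh e fun x => a (x + e) * (a (x + e + e) + a x)
    have c1 := sh e a
    have c2 := sh e fun x => a (x + e)
    simp only [e3] at b1 b2
    simp only [sum_sub_distrib, sum_add_distrib, ← mul_sum, sum_const, card_univ, Fintype.card_pi,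
      ZMod.card, prod_const, Fintype.card_fin, nsmul_eq_mul, c1, c2, s0] at t
    push_cast at t
    linarith
  have k1 := key 2 2 (by rintro u v w (rfl | rfl) (rfl | rfl) (rfl | rfl) <;> norm_num)
  have k2 := key 4 6 (by rintro u v w (rfl | rfl) (rfl | rfl) (rfl | rfl) <;> norm_num)
  rcases max_cases (6 * (n : ℤ) - 3 * d) (4 * (n : ℤ) - d) with ⟨e, -⟩ | ⟨e, -⟩ <;> rw [e] <;> linarith

end Pool.Agent.Results.MP_e7dccd_co.Upper
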